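import Mathlib

/-!
The topology of pointwise convergence on a group acting on a discrete set.
-/

set_option autoImplicit false

namespace Pool.Agent.Lib.MP_25970d_gt

open Filter Topology Set

/-- A discrete copy of a type. -/
def Disc (α : Type) : Type := α

instance (α : Type) : TopologicalSpace (Disc α) := ⊥

instance (α : Type) : DiscreteTopology (Disc α) := ⟨rfl⟩

/-- The identity map to the discrete copy. -/
def Disc.mk {α : Type} (a : α) : Disc α := a

section pt

variable (G Ω : Type) [Group G] [MulAction G Ω]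

/-- The topology of pointwise convergence. -/
@[reducible] def ptTop : TopologicalSpace G :=
  TopologicalSpace.induced (fun (g : G) (ω : Ω) => Disc.mk (g • ω)) inferInstance

variable {G Ω}

lemma pt_isOpen (ω ω' : Ω) : IsOpen[ptTop G Ω] {g : G | g • ω = ω'} := by
  let _ := ptTop G Ω
  have h1 : Continuous (fun (g : G) (ω : Ω) => Disc.mk (g • ω)) := continuous_induced_dom
  have h2 : Continuous (fun (g : G) => Disc.mk (g • ω)) := (continuous_apply ω).comp h1
  exact (isOpen_discrete {Disc.mk ω'}).preimage h2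

lemma pt_continuous {A : Type} [TopologicalSpace A] (f : A → G)
    (h : ∀ (a : A) (ω : Ω), ∀ᶠ b in 𝓝 a, f b • ω = f a • ω) :
    Continuous[inferInstance, ptTop G Ω] f := by
  let _ := ptTop G Ω
  refine continuous_induced_rng.2 (continuous_pi fun ω => ?_)
  refine continuous_iff_continuousAt.2 fun a => ?_
  rw [ContinuousAt, nhds_discrete (Disc Ω), tendsto_pure]
  exact (h a ω).mono fun b hb => congrArg Disc.mk hb

lemma pt_group : @IsTopologicalGroup G (ptTop G Ω) _ := by
  let _ := ptTop G Ω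
  have : ContinuousMul G := by
    refine ⟨pt_continuous (Ω := Ω) _ ?_⟩
    rintro ⟨g, h⟩ ω
    have h1 : IsOpen ({g' : G | g' • (h • ω) = g • (h • ω)} ×ˢ {h' : G | h' • ω = h • ω}) :=
      (pt_isOpen _ _).prod (pt_isOpen _ _)
    filter_upwards [h1.mem_nhds (x := (g, h)) ⟨rfl, rfl⟩]
    rintro ⟨g', h'⟩ ⟨h2, h3⟩
    simp only [mem_ofPred_eq] at h2 h3
    simp only [mul_smul, h3, h2]
  have : ContinuousInv G := by
    refine ⟨pt_continuous (Ω := Ω) _ ?_⟩
    intro g ω
    have h1 : IsOpen {g' : G | g' • (g⁻¹ • ω) = ω} := pt_isOpen _ _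
    filter_upwards [h1.mem_nhds (x := g) (by simp)]
    intro g' h2
    rw [inv_smul_eq_iff, h2]
  exact {}

lemma pt_mem_nhds {U : Set G} (hU : U ∈ @nhds G (ptTop G Ω) 1) :
    ∃ F : Set Ω, F.Finite ∧ ∀ g : G, (∀ ω ∈ F, g • ω = ω) → g ∈ U := by
  rw [nhds_induced, mem_comap] at hU
  obtain ⟨t, ht, hU⟩ := hU
  rw [nhds_pi, Filter.mem_pi] at ht
  obtain ⟨I, hI, s, hs, hst⟩ := ht
  refine ⟨I, hI, fun g hg => hU (hst fun ω hω => ?_)⟩
  have := mem_of_mem_nhds (hs ω)
  simp only [one_smul] at this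
  simp only [hg ω hω]
  exact this

lemma pt_t2 (h : ∀ g g' : G, (∀ ω : Ω, g • ω = g' • ω) → g = g') : @T2Space G (ptTop G Ω) := by
  let _ := ptTop G Ω
  refine T2Space.of_injective_continuous (f := fun (g : G) (ω : Ω) => Disc.mk (g • ω)) ?_
    continuous_induced_dom
  intro g g' hg
  exact h g g' fun ω => congrFun hg ω

end pt

end Pool.Agent.Lib.MP_25970d_gt
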