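import Pool.Agent.Lib.MP_25970d_gt.PointTop

/-!
The group of sequences of permutations that preserve convergence, and its action on the space of
convergent sequences.
-/

set_option autoImplicit false

namespace Pool.Agent.Lib.MP_25970d_gt

open Filter Topology Set

section seq

variable (Y : Type) [TopologicalSpace Y]

/-- Sequences of permutations, with a limit homeomorphism, preserving convergence. -/
def seqSub : Subgroup ((ℕ → Equiv.Perm Y) × (Y ≃ₜ Y)) where
  carrier := {g | ∀ (z : ℕ → Y) (y : Y),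
    Tendsto z atTop (𝓝 y) ↔ Tendsto (fun n => g.1 n (z n)) atTop (𝓝 (g.2 y))}
  one_mem' := fun z y => Iff.rfl
  mul_mem' := by
    intro g h hg hh z y
    exact (hh z y).trans (hg (fun n => h.1 n (z n)) (h.2 y))
  inv_mem' := by
    intro g hg z y
    have := hg (fun n => (g.1 n)⁻¹ (z n)) (g.2⁻¹ y)
    have h1 : ∀ n, g.1 n ((g.1 n)⁻¹ (z n)) = z n := fun n => (g.1 n).apply_symm_apply (z n)
    simp only [h1] at this
    have h2 : g.2 (g.2⁻¹ y) = y := g.2.apply_symm_apply y
    rw [h2] at this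
    exact this.symm

/-- The group. -/
def SG : Type := seqSub Y

instance : Group (SG Y) := inferInstanceAs (Group (seqSub Y))

/-- The set on which the group acts. -/
def Om : Type := (ℕ × Y) ⊕ {B : Set Y // IsClopen B}

variable {Y}

/-- The `n`-th permutation. -/
def SG.p (g : SG Y) (n : ℕ) : Equiv.Perm Y := (show seqSub Y from g).1.1 n

/-- The limit homeomorphism. -/
def SG.l (g : SG Y) : Y ≃ₜ Y := (show seqSub Y from g).1.2

lemma SG.spec (g : SG Y) (z : ℕ → Y) (y : Y) :
    Tendsto z atTop (𝓝 y) ↔ Tendsto (fun n => g.p n (z n)) atTop (𝓝 (g.l y)) :=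
  (show seqSub Y from g).2 z y

lemma SG.mul_p (g h : SG Y) (n : ℕ) (y : Y) : (g * h).p n y = g.p n (h.p n y) := rfl

lemma SG.mul_l (g h : SG Y) (y : Y) : (g * h).l y = g.l (h.l y) := rfl

lemma SG.one_p (n : ℕ) (y : Y) : (1 : SG Y).p n y = y := rfl

lemma SG.one_l (y : Y) : (1 : SG Y).l y = y := rfl

lemma SG.ext' {g h : SG Y} (h1 : ∀ n y, g.p n y = h.p n y) (h2 : ∀ y, g.l y = h.l y) : g = h := by
  apply Subtype.ext
  apply Prod.ext
  · funext n; exact Equiv.ext (h1 n)
  · exact Homeomorph.ext h2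

instance : MulAction (SG Y) (Om Y) where
  smul g ω := match ω with
    | Sum.inl x => Sum.inl (x.1, g.p x.1 x.2)
    | Sum.inr B => Sum.inr ⟨g.l '' B.1,
        ⟨g.l.isClosedMap _ B.2.isClosed, g.l.isOpenMap _ B.2.isOpen⟩⟩
  one_smul := by
    rintro (x | B)
    · rfl
    · exact congrArg Sum.inr (Subtype.ext (image_id B.1))
  mul_smul := by
    rintro g h (x | B)
    · rfl
    · exact congrArg Sum.inr (Subtype.ext (image_comp g.l h.l B.1))

lemma smul_inl (g : SG Y) (n : ℕ) (y : Y) :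
    g • (show Om Y from Sum.inl (n, y)) = (show Om Y from Sum.inl (n, g.p n y)) := rfl

lemma smul_inr_iff (g : SG Y) (B B' : {B : Set Y // IsClopen B}) :
    g • (show Om Y from Sum.inr B) = (show Om Y from Sum.inr B') ↔ g.l '' B.1 = B'.1 := by
  constructor
  · intro h
    exact congrArg Subtype.val (Sum.inr_injective h)
  · intro h
    exact congrArg Sum.inr (Subtype.ext h)

instance : TopologicalSpace (SG Y) := ptTop (SG Y) (Om Y)

instance : IsTopologicalGroup (SG Y) := pt_group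

lemma isOpen_p (n : ℕ) (y y' : Y) : IsOpen {g : SG Y | g.p n y = y'} := by
  have := pt_isOpen (G := SG Y) (Ω := Om Y) (Sum.inl (n, y)) (Sum.inl (n, y'))
  refine (congrArg IsOpen ?_).mp this
  ext g
  simp only [mem_ofPred_eq]
  constructor
  · intro h
    exact (Prod.ext_iff.1 (Sum.inl_injective h)).2
  · intro h
    rw [← h]; rfl

lemma isOpen_l (B B' : {B : Set Y // IsClopen B}) : IsOpen {g : SG Y | g.l '' B.1 = B'.1} := by
  have := pt_isOpen (G := SG Y) (Ω := Om Y) (Sum.inr B) (Sum.inr B')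
  refine (congrArg IsOpen ?_).mp this
  ext g
  exact smul_inr_iff g B B'

lemma l_eq_of_p [T2Space Y] {g h : SG Y} {y y' : Y} (h1 : ∀ n, g.p n y = h.p n y') :
    g.l y = h.l y' := by
  have h2 := (g.spec (fun _ => y) y).1 tendsto_const_nhds
  have h3 := (h.spec (fun _ => y') y').1 tendsto_const_nhds
  simp only [h1] at h2
  exact tendsto_nhds_unique h2 h3

instance [T2Space Y] : T2Space (SG Y) := by
  refine pt_t2 fun g g' h => ?_
  have h1 : ∀ n y, g.p n y = g'.p n y := fun n y =>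
    (Prod.ext_iff.1 (Sum.inl_injective (h (Sum.inl (n, y))))).2
  exact SG.ext' h1 fun y => l_eq_of_p fun n => h1 n y

variable (Y) in
/-- The space of convergent sequences with their limits. -/
def CS : Type := {x : (ℕ → Disc Y) × Y // Tendsto (fun n => (show Y from x.1 n)) atTop (𝓝 x.2)}

instance : TopologicalSpace (CS Y) := instTopologicalSpaceSubtype

instance [T2Space Y] : T2Space (CS Y) := inferInstanceAs (T2Space (Subtype _))

instance [FirstCountableTopology Y] : FirstCountableTopology (CS Y) :=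
  TopologicalSpace.firstCountableTopology_induced _ _ Subtype.val

/-- The action on convergent sequences. -/
def act (g : SG Y) (x : CS Y) : CS Y :=
  ⟨(fun n => Disc.mk (g.p n (x.1.1 n)), g.l x.1.2), (g.spec _ _).1 x.2⟩

lemma continuous_act (g : SG Y) : Continuous (act g) := by
  refine Continuous.subtype_mk (Continuous.prodMk (continuous_pi fun n => ?_) ?_) _
  · have h1 : Continuous (fun x : CS Y => x.1.1 n) :=
      (continuous_apply n).comp (continuous_fst.comp continuous_subtype_val)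
    exact (continuous_of_discreteTopology (f := fun d : Disc Y => Disc.mk (g.p n d))).comp h1
  · exact g.l.continuous.comp (continuous_snd.comp continuous_subtype_val)

lemma act_mul (g h : SG Y) (x : CS Y) : act (g * h) x = act g (act h x) := rfl

lemma act_one (x : CS Y) : act 1 x = x := rfl

/-- The constant sequence. -/
def base (y0 : Y) : CS Y := ⟨(fun _ => Disc.mk y0, y0), tendsto_const_nhds⟩

lemma tendsto_swap [T2Space Y] [DecidableEq Y] {z w : ℕ → Y} {y v : Y}
    (hz : Tendsto z atTop (𝓝 y)) (hw : Tendsto w atTop (𝓝 v)) :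
    Tendsto (fun n => Equiv.swap y (z n) (w n)) atTop (𝓝 v) := by
  by_cases hv : v = y
  · subst hv
    intro U hU
    rw [Filter.mem_map]
    filter_upwards [hz.eventually_mem hU, hw.eventually_mem hU] with n h1 h2
    simp only [mem_preimage]
    rw [Equiv.swap_apply_def]
    split_ifs
    · exact h1
    · exact mem_of_mem_nhds hU
    · exact h2
  · obtain ⟨A, B, hA, hB, hvA, hyB, hd⟩ := t2_separation hv
    refine hw.congr' ?_
    filter_upwards [hz.eventually_mem (hB.mem_nhds hyB), hw.eventually_mem (hA.mem_nhds hvA)]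
      with n h1 h2
    rw [Equiv.swap_apply_of_ne_of_ne]
    · rintro h; exact disjoint_left.1 hd h2 (h ▸ hyB)
    · rintro h; exact disjoint_left.1 hd h2 (h ▸ h1)

lemma exists_elem [T2Space Y] (y0 : Y) (x : CS Y) (g1 : Y ≃ₜ Y) (hg1 : g1 y0 = x.1.2) (n0 : ℕ)
    (h0 : ∀ i < n0, x.1.1 i = Disc.mk y0) :
    ∃ g : SG Y, g.l = g1 ∧ (∀ i < n0, ∀ y, g.p i y = y) ∧ act g (base y0) = x := by
  classical
  obtain ⟨⟨z, y⟩, hz⟩ := x
  simp only at hg1 h0 hz
  let z' : ℕ → Y := z
  let q : ℕ → Equiv.Perm Y := fun n =>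
    if n < n0 then 1 else Equiv.swap y (z' n) * g1.toEquiv
  have hq : ∀ w : ℕ → Y, (fun n => q n (w n)) =ᶠ[atTop]
      fun n => Equiv.swap y (z' n) (g1 (w n)) := by
    intro w
    filter_upwards [eventually_ge_atTop n0] with n hn
    simp only [q, if_neg (not_lt.2 hn)]
    rfl
  have hmem : (q, g1) ∈ seqSub Y := by
    intro w v
    simp only
    rw [tendsto_congr' (hq w)]
    constructor
    · intro hw
      exact tendsto_swap hz ((g1.continuous.tendsto v).comp hw)
    · intro hw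
      have h1 : Tendsto (fun n => Equiv.swap y (z' n) (Equiv.swap y (z' n) (g1 (w n)))) atTop
        (𝓝 (g1 v)) := tendsto_swap hz hw
      simp only [Equiv.swap_apply_self] at h1
      have h2 := (g1.symm.continuous.tendsto _).comp h1
      simpa [Function.comp_def] using h2
  refine ⟨(⟨(q, g1), hmem⟩ : seqSub Y), rfl, ?_, ?_⟩
  · intro i hi y
    show q i y = y
    simp [q, hi]
  · apply Subtype.ext
    apply Prod.ext
    · funext n
      show q n y0 = z' n
      by_cases hn : n < n0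
      · simp only [q, if_pos hn]; exact (h0 n hn).symm
      · simp only [q, if_neg hn]
        show Equiv.swap y (z' n) (g1 y0) = z' n
        rw [hg1, Equiv.swap_apply_left]
    · exact hg1

lemma continuous_orbit (y0 : Y)
    (hclop : ∀ y : Y, ∀ U ∈ 𝓝 y, ∃ B, IsClopen B ∧ y ∈ B ∧ B ⊆ U) :
    Continuous (fun g : SG Y => act g (base y0)) := by
  refine Continuous.subtype_mk (Continuous.prodMk (continuous_pi fun n => ?_) ?_) _
  · refine continuous_iff_continuousAt.2 fun g => ?_
    rw [ContinuousAt, nhds_discrete (Disc Y), tendsto_pure]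
    filter_upwards [(isOpen_p n y0 (g.p n y0)).mem_nhds (x := g) rfl] with g' hg'
    exact congrArg Disc.mk hg'
  · refine continuous_iff_continuousAt.2 fun g U hU => ?_
    obtain ⟨B, hB, hyB, hBU⟩ := hclop _ U hU
    have hB' : IsClopen (g.l ⁻¹' B) := hB.preimage g.l.continuous
    have h1 := (isOpen_l ⟨g.l ⁻¹' B, hB'⟩ ⟨B, hB⟩).mem_nhds (x := g)
      (g.l.surjective.image_preimage B)
    rw [Filter.mem_map]
    filter_upwards [h1] with g' hg'
    apply hBU
    have : g'.l y0 ∈ g'.l '' (g.l ⁻¹' B) := mem_image_of_mem _ hyB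
    rw [hg'] at this
    exact this

lemma image_mem_nhds_base [T2Space Y] (y0 : Y)
    (hmicro : ∀ U ∈ 𝓝 y0, ∃ V ∈ 𝓝 y0, ∀ y ∈ V, ∃ g : Y ≃ₜ Y, g y0 = y ∧ ∀ x, x ∉ U → g x = x)
    {U : Set (SG Y)} (hU : U ∈ 𝓝 (1 : SG Y)) :
    (fun g : SG Y => act g (base y0)) '' U ∈ 𝓝 (base y0) := by
  classical
  obtain ⟨F, hF, hFU⟩ := pt_mem_nhds (G := SG Y) (Ω := Om Y) hU
  have hF1 : (Prod.fst '' (Sum.inl ⁻¹' F : Set (ℕ × Y))).Finite :=
    (hF.preimage Sum.inl_injective.injOn).image _
  obtain ⟨n0, hn0⟩ := hF1.bddAbove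
  have hF2 : (Sum.inr ⁻¹' F : Set {B : Set Y // IsClopen B}).Finite :=
    hF.preimage Sum.inr_injective.injOn
  have hW : (⋂ B ∈ (Sum.inr ⁻¹' F : Set {B : Set Y // IsClopen B}),
      {y | y ∈ B.1 ↔ y0 ∈ B.1}) ∈ 𝓝 y0 := by
    rw [biInter_mem hF2]
    intro B _
    by_cases hb : y0 ∈ B.1
    · filter_upwards [B.2.isOpen.mem_nhds hb] with y hy
      simp [hy, hb]
    · filter_upwards [B.2.compl.isOpen.mem_nhds hb] with y hy
      simp only [mem_compl_iff] at hy
      simp [hy, hb]
  obtain ⟨V, hV, hVg⟩ := hmicro _ hW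
  have h1 : ∀ᶠ x : CS Y in 𝓝 (base y0), ∀ i ∈ Finset.range (n0 + 1), x.1.1 i = Disc.mk y0 := by
    rw [eventually_all_finset]
    intro i _
    have h1 : Continuous (fun x : CS Y => x.1.1 i) :=
      (continuous_apply i).comp (continuous_fst.comp continuous_subtype_val)
    exact ((isOpen_discrete {Disc.mk y0}).preimage h1).mem_nhds rfl
  have h2 : ∀ᶠ x : CS Y in 𝓝 (base y0), x.1.2 ∈ V :=
    (continuous_snd.comp continuous_subtype_val).continuousAt (x := base y0) hV
  filter_upwards [h1, h2] with x hx1 hx2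
  obtain ⟨g1, hg1, hsupp⟩ := hVg _ hx2
  obtain ⟨g, hl, hp, hg⟩ := exists_elem y0 x g1 hg1 (n0 + 1)
    (fun i hi => hx1 i (Finset.mem_range.2 hi))
  refine ⟨g, hFU g ?_, hg⟩
  rintro (⟨n, y⟩ | B) hω
  · have : n ≤ n0 := hn0 ⟨(n, y), hω, rfl⟩
    rw [smul_inl, hp n (by omega)]
  · rw [smul_inr_iff, hl]
    have key : ∀ y, g1 y ∈ B.1 ↔ y ∈ B.1 := by
      intro y
      by_cases hy : y ∈ (⋂ B ∈ (Sum.inr ⁻¹' F : Set {B : Set Y // IsClopen B}),
          {y | y ∈ B.1 ↔ y0 ∈ B.1})
      · have hy' : g1 y ∈ (⋂ B ∈ (Sum.inr ⁻¹' F : Set {B : Set Y // IsClopen B}),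
            {y | y ∈ B.1 ↔ y0 ∈ B.1}) := by
          by_contra hc
          have := g1.injective (hsupp _ hc)
          rw [this] at hc
          exact hc hy
        exact (mem_iInter₂.1 hy' B hω).trans (mem_iInter₂.1 hy B hω).symm
      · rw [hsupp y hy]
    ext y
    constructor
    · rintro ⟨y', hy', rfl⟩
      exact (key y').2 hy'
    · intro hy
      refine ⟨g1.symm y, (key _).1 ?_, g1.apply_symm_apply y⟩
      rwa [g1.apply_symm_apply]

lemma isOpenQuotientMap_orbit [T2Space Y] (y0 : Y)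
    (hclop : ∀ y : Y, ∀ U ∈ 𝓝 y, ∃ B, IsClopen B ∧ y ∈ B ∧ B ⊆ U)
    (hmicro : ∀ U ∈ 𝓝 y0, ∃ V ∈ 𝓝 y0, ∀ y ∈ V, ∃ g : Y ≃ₜ Y, g y0 = y ∧ ∀ x, x ∉ U → g x = x)
    (htrans : ∀ y, ∃ g : Y ≃ₜ Y, g y0 = y) :
    IsOpenQuotientMap (fun g : SG Y => act g (base y0)) := by
  refine ⟨fun x => ?_, continuous_orbit y0 hclop, ?_⟩
  · obtain ⟨g1, hg1⟩ := htrans x.1.2
    obtain ⟨g, -, -, hg⟩ := exists_elem y0 x g1 hg1 0 (fun i hi => absurd hi (by omega))
    exact ⟨g, hg⟩
  · refine IsOpenMap.of_nhds_le fun g => Filter.le_map fun U hU => ?_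
    have h1 : (fun h => g * h) ⁻¹' U ∈ 𝓝 (1 : SG Y) :=
      (continuous_const_mul g).continuousAt (by simpa using hU)
    have h2 := image_mem_nhds_base y0 hmicro h1
    have h3 : act g⁻¹ (act g (base y0)) = base y0 := by
      rw [← act_mul, inv_mul_cancel, act_one]
    have h4 : act g⁻¹ ⁻¹' ((fun g : SG Y => act g (base y0)) '' ((fun h => g * h) ⁻¹' U)) ∈
        𝓝 (act g (base y0)) := (continuous_act g⁻¹).continuousAt (by rw [h3]; exact h2)
    filter_upwards [h4] with x hx
    obtain ⟨h, hh, hx⟩ := hx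
    refine ⟨g * h, hh, ?_⟩
    simp only at hx ⊢
    rw [act_mul, hx, ← act_mul, mul_inv_cancel, act_one]

/-- The open subgroups fixing the first `n` coordinates of the constant sequence. -/
def K (y0 : Y) (n : ℕ) : Subgroup (SG Y) where
  carrier := {g | ∀ i < n, g.p i y0 = y0}
  one_mem' := fun _ _ => rfl
  mul_mem' := by
    intro g h hg hh i hi
    rw [SG.mul_p, hh i hi, hg i hi]
  inv_mem' := by
    intro g hg i hi
    have := SG.mul_p g⁻¹ g i y0
    rw [inv_mul_cancel, SG.one_p, hg i hi] at this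
    exact this.symm

lemma isOpen_K (y0 : Y) (n : ℕ) : IsOpen (K y0 n : Set (SG Y)) := by
  have : (K y0 n : Set (SG Y)) = ⋂ i ∈ Finset.range n, {g : SG Y | g.p i y0 = y0} := by
    ext g
    simp only [mem_iInter, Finset.mem_range, mem_ofPred_eq]
    rfl
  rw [this]
  exact isOpen_biInter_finset fun i _ => isOpen_p i y0 y0

lemma K_anti (y0 : Y) (n : ℕ) : K y0 (n + 1) ≤ K y0 n :=
  fun _ hg i hi => hg i (by omega)

lemma act_eq_iff [T2Space Y] (y0 : Y) (g h : SG Y) :
    act g (base y0) = act h (base y0) ↔ ∀ n, g⁻¹ * h ∈ K y0 n := by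
  constructor
  · intro he n i _
    have h1 : g.p i y0 = h.p i y0 := congrFun (congrArg (fun x : CS Y => x.1.1) he) i
    rw [SG.mul_p, ← h1, ← SG.mul_p, inv_mul_cancel, SG.one_p]
  · intro hK
    have h1 : ∀ i, g.p i y0 = h.p i y0 := by
      intro i
      have := hK (i + 1) i (by omega)
      have h2 := SG.mul_p g (g⁻¹ * h) i y0
      rw [mul_inv_cancel_left, this] at h2
      exact h2.symm
    apply Subtype.ext
    apply Prod.ext
    · funext i; exact h1 i
    · exact l_eq_of_p h1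

lemma embedding_of_section (s : ℕ → Y → Y) (hs : ∀ n y, ∀ᶠ y' in 𝓝 y, s n y' = s n y)
    (hlim : ∀ y, Tendsto (fun n => s n y) atTop (𝓝 y)) :
    ∃ f : Y → CS Y, IsEmbedding f := by
  let f : Y → CS Y := fun y => ⟨(fun n => Disc.mk (s n y), y), hlim y⟩
  have hf : Continuous f := by
    refine Continuous.subtype_mk (Continuous.prodMk (continuous_pi fun n => ?_) continuous_id) _
    refine continuous_iff_continuousAt.2 fun y => ?_
    rw [ContinuousAt, nhds_discrete (Disc Y), tendsto_pure]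
    exact (hs n y).mono fun y' hy' => congrArg Disc.mk hy'
  exact ⟨f, Function.LeftInverse.isEmbedding (f := fun x : CS Y => x.1.2) (fun _ => rfl)
    (continuous_snd.comp continuous_subtype_val) hf⟩

end seq

end Pool.Agent.Lib.MP_25970d_gt
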