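import Pool.Agent.Lib.MP_25970d_gt.SeqGroup

/-!
The Sorgenfrey line and the properties needed for the construction.
-/

set_option autoImplicit false

namespace Pool.Agent.Lib.MP_25970d_gt

open Filter Topology Set TopologicalSpace

/-- The Sorgenfrey line. -/
def SL : Type := ℝ

noncomputable instance : Field SL := inferInstanceAs (Field ℝ)
noncomputable instance : ConditionallyCompleteLinearOrder SL :=
  inferInstanceAs (ConditionallyCompleteLinearOrder ℝ)
instance : IsStrictOrderedRing SL := inferInstanceAs (IsStrictOrderedRing ℝ)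
instance : Archimedean SL := inferInstanceAs (Archimedean ℝ)
noncomputable instance : FloorRing SL := inferInstanceAs (FloorRing ℝ)
instance : Uncountable SL := inferInstanceAs (Uncountable ℝ)

instance : TopologicalSpace SL where
  IsOpen s := ∀ x ∈ s, ∃ y, x < y ∧ Ico x y ⊆ s
  isOpen_univ := fun x _ => ⟨x + 1, by linarith, subset_univ _⟩
  isOpen_inter := by
    intro s t hs ht x hx
    obtain ⟨y, hy, h1⟩ := hs x hx.1
    obtain ⟨z, hz, h2⟩ := ht x hx.2
    exact ⟨min y z, lt_min hy hz, fun a ha =>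
      ⟨h1 ⟨ha.1, ha.2.trans_le (min_le_left _ _)⟩, h2 ⟨ha.1, ha.2.trans_le (min_le_right _ _)⟩⟩⟩
  isOpen_sUnion := by
    intro S hS x hx
    obtain ⟨t, ht, hx⟩ := hx
    obtain ⟨y, hy, h1⟩ := hS t ht x hx
    exact ⟨y, hy, h1.trans (subset_sUnion_of_mem ht)⟩

namespace SL

lemma isOpen_Ico (a b : SL) : IsOpen (Ico a b) :=
  fun _ hx => ⟨b, hx.2, fun _ hy => ⟨hx.1.trans hy.1, hy.2⟩⟩

lemma isClopen_Ico (a b : SL) : IsClopen (Ico a b) := by
  refine ⟨⟨fun x hx => ?_⟩, isOpen_Ico a b⟩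
  by_cases h : x < a
  · exact ⟨a, h, fun y hy hy' => absurd hy.2 (not_lt.2 hy'.1)⟩
  · have h2 : b ≤ x := by
      by_contra h3
      exact hx ⟨not_lt.1 h, not_le.1 h3⟩
    exact ⟨x + 1, by linarith, fun y hy hy' => absurd hy'.2 (not_lt.2 (h2.trans hy.1))⟩

lemma nhds_basis (a : SL) : (𝓝 a).HasBasis (a < ·) (Ico a ·) := by
  refine ⟨fun t => ?_⟩
  rw [mem_nhds_iff]
  constructor
  · rintro ⟨s, hst, hs, ha⟩
    obtain ⟨y, hy, h⟩ := hs a ha
    exact ⟨y, hy, h.trans hst⟩
  · rintro ⟨y, hy, h⟩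
    exact ⟨_, h, isOpen_Ico a y, ⟨le_rfl, hy⟩⟩

lemma Ico_mem_nhds {a b : SL} (h : a < b) : Ico a b ∈ 𝓝 a := (nhds_basis a).mem_of_mem h

instance : T2Space SL := by
  refine t2_iff_nhds.2 fun {x y} h => ?_
  by_contra hne
  have key : ∀ {a b : SL}, a < b → 𝓝 a ⊓ 𝓝 b = ⊥ := by
    intro a b hab
    rw [← empty_mem_iff_bot]
    refine mem_of_superset (inter_mem_inf (Ico_mem_nhds hab)
      (Ico_mem_nhds (show b < b + 1 by linarith))) ?_
    rintro z ⟨h1, h2⟩
    exact absurd h1.2 (not_lt.2 h2.1)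
  rcases lt_or_gt_of_ne hne with h1 | h1
  · exact h.ne (key h1)
  · exact h.ne (by rw [inf_comm]; exact key h1)

instance : FirstCountableTopology SL := by
  refine ⟨fun a => ?_⟩
  have : (𝓝 a).HasCountableBasis (fun r : ℚ => a < r) fun r => Ico a r := by
    refine ⟨(nhds_basis a).to_hasBasis (fun b hb => ?_) fun r hr => ⟨_, hr, Subset.rfl⟩,
      Set.to_countable _⟩
    rcases exists_rat_btwn hb with ⟨r, har, hrb⟩
    exact ⟨r, har, Ico_subset_Ico_right hrb.le⟩
  exact this.isCountablyGenerated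

instance : SeparableSpace SL := by
  refine ⟨⟨range ((↑) : ℚ → SL), countable_range _, dense_iff_inter_open.2 ?_⟩⟩
  rintro U Uo ⟨x, hx⟩
  obtain ⟨y, hxy, hU⟩ := Uo x hx
  rcases exists_rat_btwn hxy with ⟨z, hxz, hzy⟩
  exact ⟨z, hU ⟨hxz.le, hzy⟩, mem_range_self _⟩

lemma not_metrizable : ¬ MetrizableSpace SL := by
  intro h
  let _ := metrizableSpaceMetric SL
  have hsc : SecondCountableTopology SL := UniformSpace.secondCountable_of_separable SL
  have h1 : ∀ x : SL, ∃ B ∈ countableBasis SL, x ∈ B ∧ B ⊆ Ico x (x + 1) := fun x =>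
    (isBasis_countableBasis SL).exists_subset_of_mem_open ⟨le_rfl, by linarith⟩ (isOpen_Ico _ _)
  choose B hB hxB hBs using h1
  have hinj : Function.Injective (fun x => (⟨B x, hB x⟩ : countableBasis SL)) := by
    intro x y hxy
    have h2 : B x = B y := congrArg Subtype.val hxy
    exact le_antisymm (hBs x (h2 ▸ hxB y)).1 (hBs y (h2 ▸ hxB x)).1
  have : Countable (countableBasis SL) := (countable_countableBasis SL).to_subtype
  exact not_countable (α := SL) hinj.countable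

lemma hclop (y : SL) (U : Set SL) (hU : U ∈ 𝓝 y) : ∃ B, IsClopen B ∧ y ∈ B ∧ B ⊆ U := by
  obtain ⟨b, hb, h⟩ := (nhds_basis y).mem_iff.1 hU
  exact ⟨_, isClopen_Ico y b, ⟨le_rfl, hb⟩, h⟩

/-- A map that is a translation to the right of each point is continuous. -/
lemma continuous_of_local (f : SL → SL)
    (h : ∀ x, ∃ b, x < b ∧ ∀ y ∈ Ico x b, f y = f x + (y - x)) : Continuous f := by
  refine continuous_iff_continuousAt.2 fun x U hU => ?_
  obtain ⟨c, hc, hcU⟩ := (nhds_basis (f x)).mem_iff.1 hU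
  obtain ⟨b, hb, hf⟩ := h x
  rw [Filter.mem_map]
  filter_upwards [Ico_mem_nhds hb, Ico_mem_nhds (show x < x + (c - f x) by linarith)]
    with y h1 h2
  apply hcU
  rw [hf y h1]
  exact ⟨by linarith [h1.1], by linarith [h2.2]⟩

/-- Exchange of the intervals `[0, y)` and `[y, 2 y)`. -/
noncomputable def sw (y x : SL) : SL :=
  if 0 ≤ x ∧ x < y then x + y else if y ≤ x ∧ x < 2 * y then x - y else x

lemma sw_invol (y : SL) : Function.Involutive (sw y) := by
  intro x
  by_cases h1 : 0 ≤ x ∧ x < y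
  · have e1 : sw y x = x + y := if_pos h1
    rw [e1, sw, if_neg (by rintro ⟨_, h⟩; linarith [h1.1]),
      if_pos ⟨by linarith [h1.1], by linarith [h1.2]⟩]
    ring
  · by_cases h2 : y ≤ x ∧ x < 2 * y
    · have e1 : sw y x = x - y := by rw [sw, if_neg h1, if_pos h2]
      rw [e1, sw, if_pos ⟨by linarith [h2.1], by linarith [h2.2]⟩]
      ring
    · have e1 : sw y x = x := by rw [sw, if_neg h1, if_neg h2]
      rw [e1, e1]

lemma continuous_sw (y : SL) (hy : 0 < y) : Continuous (sw y) := by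
  refine continuous_of_local _ fun x => ?_
  by_cases h1 : 0 ≤ x ∧ x < y
  · refine ⟨y, h1.2, fun z hz => ?_⟩
    rw [sw, sw, if_pos h1, if_pos ⟨h1.1.trans hz.1, hz.2⟩]; ring
  · by_cases h2 : y ≤ x ∧ x < 2 * y
    · refine ⟨2 * y, h2.2, fun z hz => ?_⟩
      rw [sw, sw, if_neg h1, if_pos h2, if_neg (by rintro ⟨_, h⟩; linarith [h2.1, hz.1]),
        if_pos ⟨h2.1.trans hz.1, hz.2⟩]
      ring
    · by_cases h3 : x < 0
      · refine ⟨0, h3, fun z hz => ?_⟩
        rw [sw, sw, if_neg h1, if_neg h2, if_neg (by rintro ⟨h, _⟩; linarith [hz.2]),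
          if_neg (by rintro ⟨h, _⟩; linarith [hz.2])]
        ring
      · have h4 : y ≤ x := by
          by_contra h5
          exact h1 ⟨not_lt.1 h3, not_le.1 h5⟩
        have h5 : 2 * y ≤ x := by
          by_contra h5
          exact h2 ⟨h4, not_le.1 h5⟩
        refine ⟨x + 1, by linarith, fun z hz => ?_⟩
        rw [sw, sw, if_neg h1, if_neg h2, if_neg (by rintro ⟨_, h⟩; linarith [hz.1]),
          if_neg (by rintro ⟨_, h⟩; linarith [hz.1])]
        ring

lemma hmicro (U : Set SL) (hU : U ∈ 𝓝 (0 : SL)) :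
    ∃ V ∈ 𝓝 (0 : SL), ∀ y ∈ V, ∃ g : SL ≃ₜ SL, g 0 = y ∧ ∀ x, x ∉ U → g x = x := by
  obtain ⟨b, hb, h⟩ := (nhds_basis 0).mem_iff.1 hU
  refine ⟨Ico 0 (b / 2), Ico_mem_nhds (by linarith), fun y hy => ?_⟩
  rcases hy.1.lt_or_eq with h1 | h1
  · refine ⟨⟨(sw_invol y).toPerm, continuous_sw y h1, continuous_sw y h1⟩, ?_, ?_⟩
    · show sw y 0 = y
      rw [sw, if_pos ⟨le_rfl, h1⟩, zero_add]
    · intro x hx
      show sw y x = x
      rw [sw, if_neg, if_neg]
      · rintro ⟨h2, h3⟩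
        exact hx (h ⟨by linarith, by linarith [hy.2]⟩)
      · rintro ⟨h2, h3⟩
        exact hx (h ⟨h2, by linarith [hy.2]⟩)
  · exact ⟨Homeomorph.refl _, h1, fun _ _ => rfl⟩

lemma htrans (y : SL) : ∃ g : SL ≃ₜ SL, g 0 = y := by
  refine ⟨⟨Equiv.addRight y, continuous_of_local _ fun x => ⟨x + 1, by linarith, fun z _ => ?_⟩,
    continuous_of_local _ fun x => ⟨x + 1, by linarith, fun z _ => ?_⟩⟩, zero_add y⟩
  · show z + y = x + y + (z - x)
    ring
  · show z + -y = x + -y + (z - x)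
    ring

/-- The right end point of the interval of the `n`-th grid containing `y`. -/
noncomputable def sec (n : ℕ) (y : SL) : SL := ((⌊((n : SL) + 1) * y⌋ : SL) + 1) / ((n : SL) + 1)

lemma lt_sec (n : ℕ) (y : SL) : y < sec n y := by
  have hn : (0 : SL) < (n : SL) + 1 := by positivity
  rw [sec, lt_div_iff₀ hn]
  have := Int.lt_floor_add_one (((n : SL) + 1) * y)
  linarith

lemma sec_le (n : ℕ) (y : SL) : sec n y ≤ y + 1 / ((n : SL) + 1) := by
  have hn : (0 : SL) < (n : SL) + 1 := by positivity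
  rw [sec, div_le_iff₀ hn, add_mul y, one_div_mul_cancel hn.ne']
  have := Int.floor_le (((n : SL) + 1) * y)
  linarith

lemma sec_locally (n : ℕ) (y : SL) : ∀ᶠ y' in 𝓝 y, sec n y' = sec n y := by
  have hn : (0 : SL) < (n : SL) + 1 := by positivity
  filter_upwards [Ico_mem_nhds (lt_sec n y)] with z hz
  have h1 : ⌊((n : SL) + 1) * z⌋ = ⌊((n : SL) + 1) * y⌋ := by
    rw [Int.floor_eq_iff]
    have h2 := Int.floor_le (((n : SL) + 1) * y)
    have h3 := hz.2
    rw [sec, lt_div_iff₀ hn] at h3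
    have h4 : ((n : SL) + 1) * y ≤ ((n : SL) + 1) * z := mul_le_mul_of_nonneg_left hz.1 hn.le
    exact ⟨by linarith, by linarith⟩
  rw [sec, sec, h1]

lemma sec_tendsto (y : SL) : Tendsto (fun n => sec n y) atTop (𝓝 y) := by
  rw [(nhds_basis y).tendsto_right_iff]
  intro b hb
  obtain ⟨k, hk⟩ := exists_nat_one_div_lt (sub_pos.2 hb)
  filter_upwards [eventually_ge_atTop k] with n hn
  refine ⟨(lt_sec n y).le, ?_⟩
  have h1 := sec_le n y
  have h2 : 1 / ((n : SL) + 1) ≤ 1 / ((k : SL) + 1) := Nat.one_div_le_one_div hn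
  linarith

lemma not_metrizable_CS : ¬ MetrizableSpace (CS SL) := by
  intro h
  obtain ⟨f, hf⟩ := embedding_of_section sec sec_locally sec_tendsto
  exact not_metrizable hf.metrizableSpace

end SL

end Pool.Agent.Lib.MP_25970d_gt
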